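import Mathlib
import Pool.Agent.helper78.CX.Defs

/-! # MP_c3df8c_co (CX project), module CN: cones -/

open Set

namespace Pool.Agent.helper78.CX

theorem CN_LL_pos : (0 : ℝ) < LL := by unfold LL; norm_num

theorem CN_MM_pos (a : ℤ × ℤ) (i : Fin 3) : 0 < MM a i := by
  have h := CN_LL_pos
  fin_cases i
  · exact zpow_pos h _
  · exact zpow_pos h _
  · exact one_pos

theorem CN_MM_add (b x : ℤ × ℤ) (l : Fin 3) : MM (b + x) l = MM b l * MM x l := by
  have h := CN_LL_pos.ne'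
  fin_cases l
  · exact zpow_add₀ h _ _
  · exact zpow_add₀ h _ _
  · exact (one_mul (1 : ℝ)).symm

/-- the coefficients -/
noncomputable def CN_coef : Fin 3 → Fin 4 → Fin 3 → ℝ :=
  ![![![21195 / 42361, 15390 / 42361, 5776 / 42361], ![3240 / 42361, 33921 / 42361, 5200 / 42361],
      ![24111 / 42361, 7794 / 42361, 10456 / 42361], ![6156 / 42361, 26325 / 42361, 9880 / 42361]],
    ![![2295 / 2903, 304 / 2903, 304 / 2903], ![2079 / 2903, 30152 / 130635, 6928 / 130635],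
      ![2079 / 2903, 6928 / 130635, 30152 / 130635], ![1863 / 2903, 520 / 2903, 520 / 2903]],
    ![![7065 / 14687, 8 / 773, 7470 / 14687], ![423 / 773, 80 / 773, 270 / 773],
      ![1080 / 14687, 80 / 773, 12087 / 14687], ![108 / 773, 152 / 773, 513 / 773]]]

/-- the normals of the unit square are in the open cone of the normals of the triangle -/
theorem cone_tri (j : Fin 3) (w : Fin 4) (b : ℤ × ℤ) : ∃ α : Fin 3 → ℝ, (∀ i, 0 < α i) ∧
    ∀ l, MM (b + cw w) l = ∑ i, α i * MM (b + tq j i) l := by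
  refine ⟨CN_coef j w, ?_, ?_⟩
  · intro i
    fin_cases j <;> fin_cases w <;> fin_cases i <;> simp [CN_coef]
  · intro l
    have h1 : ∑ i, CN_coef j w i * MM (b + tq j i) l =
        MM b l * ∑ i, CN_coef j w i * MM (tq j i) l := by
      rw [Finset.mul_sum]
      apply Finset.sum_congr rfl
      intro i _
      rw [CN_MM_add]; ring
    rw [h1, CN_MM_add]
    congr 1
    rw [Fin.sum_univ_three]
    fin_cases j <;> fin_cases w <;> fin_cases l <;> simp [CN_coef, MM, tq, cw, LL] <;> norm_num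

/-- the normals of a triangle are linearly independent -/
theorem indep_tri (j : Fin 3) (b : ℤ × ℤ) (y : Fin 3 → ℝ)
    (h : ∀ i, ∑ l, MM (b + tq j i) l * y l = 0) : y = 0 := by
  have h1 : ∀ i, ∑ l, MM (tq j i) l * (MM b l * y l) = 0 := by
    intro i
    rw [← h i]
    apply Finset.sum_congr rfl
    intro l _
    rw [CN_MM_add]; ring
  have h2 : ∀ l, MM b l * y l = 0 := by
    set z : Fin 3 → ℝ := fun l => MM b l * y l with hz
    have h3 : ∀ i, ∑ l, MM (tq j i) l * z l = 0 := h1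
    have e0 := h3 0
    have e1 := h3 1
    have e2 := h3 2
    rw [Fin.sum_univ_three] at e0 e1 e2
    have key : z 0 = 0 ∧ z 1 = 0 ∧ z 2 = 0 := by
      fin_cases j <;> simp [MM, tq, LL] at e0 e1 e2 <;> norm_num at e0 e1 e2 <;>
        refine ⟨?_, ?_, ?_⟩ <;> linarith
    intro l
    fin_cases l
    · exact key.1
    · exact key.2.1
    · exact key.2.2
  funext l
  have h4 := h2 l
  rcases mul_eq_zero.1 h4 with h5 | h5
  · exact absurd h5 (CN_MM_pos b l).ne'
  · exact h5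

theorem CN_zpow_lt {m k : ℤ} (h : m < k) : LL ^ m < LL ^ k :=
  zpow_lt_zpow_right₀ (by unfold LL; norm_num) h

theorem CN_zpow_le {m k : ℤ} (h : m ≤ k) : LL ^ m ≤ LL ^ k :=
  zpow_le_zpow_right₀ (by unfold LL; norm_num) h

/-- a strip normal is a positive combination of the normal of the special point and the two
unit vectors other than `e_(stax q)` -/
theorem cone_strip (n : ℕ) (hn : 10 ≤ n) (q : Fin 4) (a : ℤ × ℤ) (ha : a ∈ Box n)
    (hs : InStrip n q a) : ∃ (α : ℝ) (β : Fin 3 → ℝ), 0 < α ∧ (∀ i, i ≠ stax q → 0 < β i) ∧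
      β (stax q) = 0 ∧ ∀ l, MM a l = α * MM (sp n q) l + β l := by
  have hL := CN_LL_pos
  simp only [Box, Finset.mem_product, Finset.mem_Icc] at ha
  obtain ⟨⟨ha1, ha2⟩, ha3, ha4⟩ := ha
  have hn' : (10 : ℤ) ≤ n := by exact_mod_cast hn
  fin_cases q
  · have hs' : a.1 ≤ -(n : ℤ) + 3 := hs
    set α : ℝ := LL ^ (a.1 + n - 4) with hα
    have hα0 : 0 < α := zpow_pos hL _
    have hα1 : α < 1 := by
      have := CN_zpow_lt (show a.1 + n - 4 < 0 by omega)
      rwa [zpow_zero] at this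
    have e1 : LL ^ (-(n : ℤ)) ≤ LL ^ a.2 := CN_zpow_le ha3
    have e2 : 0 < LL ^ (-(n : ℤ)) := zpow_pos hL _
    refine ⟨α, ![0, LL ^ a.2 - α * LL ^ (-(n : ℤ)), 1 - α], hα0, ?_, rfl, ?_⟩
    · intro i hi
      fin_cases i
      · exact absurd rfl hi
      · show 0 < LL ^ a.2 - α * LL ^ (-(n : ℤ))
        nlinarith
      · show 0 < 1 - α
        linarith
    · intro l
      fin_cases l
      · show LL ^ a.1 = α * LL ^ (-(n : ℤ) + 4) + 0
        rw [hα, ← zpow_add₀ hL.ne', add_zero]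
        congr 1; ring
      · show LL ^ a.2 = α * LL ^ (-(n : ℤ)) + (LL ^ a.2 - α * LL ^ (-(n : ℤ)))
        ring
      · show (1 : ℝ) = α * 1 + (1 - α)
        ring
  · have hs' : a.2 ≤ -(n : ℤ) + 3 := hs
    set α : ℝ := LL ^ (a.2 + n - 4) with hα
    have hα0 : 0 < α := zpow_pos hL _
    have hα1 : α < 1 := by
      have := CN_zpow_lt (show a.2 + n - 4 < 0 by omega)
      rwa [zpow_zero] at this
    have e1 : LL ^ (-(n : ℤ)) ≤ LL ^ a.1 := CN_zpow_le ha1
    have e2 : 0 < LL ^ (-(n : ℤ)) := zpow_pos hL _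
    refine ⟨α, ![LL ^ a.1 - α * LL ^ (-(n : ℤ)), 0, 1 - α], hα0, ?_, rfl, ?_⟩
    · intro i hi
      fin_cases i
      · show 0 < LL ^ a.1 - α * LL ^ (-(n : ℤ))
        nlinarith
      · exact absurd rfl hi
      · show 0 < 1 - α
        linarith
    · intro l
      fin_cases l
      · show LL ^ a.1 = α * LL ^ (-(n : ℤ)) + (LL ^ a.1 - α * LL ^ (-(n : ℤ)))
        ring
      · show LL ^ a.2 = α * LL ^ (-(n : ℤ) + 4) + 0
        rw [hα, ← zpow_add₀ hL.ne', add_zero]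
        congr 1; ring
      · show (1 : ℝ) = α * 1 + (1 - α)
        ring
  · have hs' : (n : ℤ) - 3 ≤ a.1 ∧ -(n : ℤ) + 1 ≤ a.2 := hs
    refine ⟨1, ![LL ^ a.1 - LL ^ ((n : ℤ) - 4), LL ^ a.2 - LL ^ (-(n : ℤ)), 0], one_pos, ?_, rfl,
      ?_⟩
    · intro i hi
      fin_cases i
      · show 0 < LL ^ a.1 - LL ^ ((n : ℤ) - 4)
        linarith [CN_zpow_lt (show (n : ℤ) - 4 < a.1 by omega)]
      · show 0 < LL ^ a.2 - LL ^ (-(n : ℤ))
        linarith [CN_zpow_lt (show -(n : ℤ) < a.2 by omega)]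
      · exact absurd rfl hi
    · intro l
      fin_cases l
      · show LL ^ a.1 = 1 * LL ^ ((n : ℤ) - 4) + (LL ^ a.1 - LL ^ ((n : ℤ) - 4))
        ring
      · show LL ^ a.2 = 1 * LL ^ (-(n : ℤ)) + (LL ^ a.2 - LL ^ (-(n : ℤ)))
        ring
      · show (1 : ℝ) = 1 * 1 + 0
        ring
  · have hs' : (n : ℤ) - 3 ≤ a.2 ∧ -(n : ℤ) + 1 ≤ a.1 := hs
    refine ⟨1, ![LL ^ a.1 - LL ^ (-(n : ℤ)), LL ^ a.2 - LL ^ ((n : ℤ) - 4), 0], one_pos, ?_, rfl,
      ?_⟩
    · intro i hi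
      fin_cases i
      · show 0 < LL ^ a.1 - LL ^ (-(n : ℤ))
        linarith [CN_zpow_lt (show -(n : ℤ) < a.1 by omega)]
      · show 0 < LL ^ a.2 - LL ^ ((n : ℤ) - 4)
        linarith [CN_zpow_lt (show (n : ℤ) - 4 < a.2 by omega)]
      · exact absurd rfl hi
    · intro l
      fin_cases l
      · show LL ^ a.1 = 1 * LL ^ (-(n : ℤ)) + (LL ^ a.1 - LL ^ (-(n : ℤ)))
        ring
      · show LL ^ a.2 = 1 * LL ^ ((n : ℤ) - 4) + (LL ^ a.2 - LL ^ ((n : ℤ) - 4))
        ring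
      · show (1 : ℝ) = 1 * 1 + 0
        ring

end Pool.Agent.helper78.CX
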