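import Mathlib
import Pool.Agent.helper78.CX.Defs
import Pool.Agent.helper92.CX.CN

/-! # MP_c3df8c_co (CX project), module SB: slices, strips -/

open Set

namespace Pool.Agent.helper78.CX

/-- the special point of the strip slice -/
noncomputable def SB_z (θ : ℝ) (q : Fin 4) : Fin 3 → ℝ := fun i => if i = stax q then θ else 0

theorem SB_sum (N : Fin 3 → ℝ) (θ : ℝ) (q : Fin 4) :
    ∑ i, N i * SB_z θ q i = N (stax q) * θ := by
  unfold SB_z
  rw [Finset.sum_eq_single (stax q)]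
  · rw [if_pos rfl]
  · intro i _ hi
    rw [if_neg hi, mul_zero]
  · intro h; exact absurd (Finset.mem_univ _) h

/-- the right-hand side of the strip slice -/
noncomputable def SB_b (n : ℕ) (θ : ℝ) (q : Fin 4) (k : Kap n) : ℝ :=
  cc n k + bet n θ (.inr (.inl q)) k

theorem SB_b_false (n : ℕ) (θ : ℝ) (q : Fin 4) (i : Fin 3) : SB_b n θ q (.inl (i, false)) = 0 := by
  simp [SB_b, cc, bet]

theorem SB_b_true (n : ℕ) (θ : ℝ) (q : Fin 4) (i : Fin 3) : SB_b n θ q (.inl (i, true)) = -1 := by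
  simp [SB_b, cc, bet]

theorem SB_b_pos (n : ℕ) (θ : ℝ) (q : Fin 4) (a : {a : ℤ × ℤ // a ∈ Box n})
    (h : InStrip n q a.1 ∨ a.1 = sp n q) : SB_b n θ q (.inr a) = θ * MM a.1 (stax q) := by
  simp [SB_b, cc, bet, h]

theorem SB_b_neg (n : ℕ) (θ : ℝ) (q : Fin 4) (a : {a : ℤ × ℤ // a ∈ Box n})
    (h : ¬ (InStrip n q a.1 ∨ a.1 = sp n q)) : SB_b n θ q (.inr a) = 0 := by
  simp [SB_b, cc, bet, h]

theorem SB_N_false (n : ℕ) (i : Fin 3) (y : Fin 3 → ℝ) :
    ∑ l, NN n (.inl (i, false)) l * y l = y i := by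
  simp only [NN]
  rw [Finset.sum_eq_single i]
  · simp
  · intro l _ hl
    rw [Pi.single_eq_of_ne hl, zero_mul]
  · intro h; exact absurd (Finset.mem_univ _) h

theorem SB_N_true (n : ℕ) (i : Fin 3) (y : Fin 3 → ℝ) :
    ∑ l, NN n (.inl (i, true)) l * y l = -y i := by
  simp only [NN]
  rw [Finset.sum_eq_single i]
  · simp
  · intro l _ hl
    rw [Pi.single_eq_of_ne hl, zero_mul]
  · intro h; exact absurd (Finset.mem_univ _) h

/-- `z` satisfies all the constraints -/
theorem SB_z_mem (n : ℕ) (θ : ℝ) (hθ : 0 < θ) (hθ' : θ < 1) (q : Fin 4) (k : Kap n) :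
    SB_b n θ q k ≤ ∑ i, NN n k i * SB_z θ q i := by
  rcases k with ⟨i, b⟩ | a
  · cases b
    · rw [SB_b_false, SB_N_false]
      unfold SB_z
      split_ifs
      · exact hθ.le
      · exact le_rfl
    · rw [SB_b_true, SB_N_true]
      unfold SB_z
      split_ifs <;> linarith
  · rw [SB_sum]
    by_cases h : InStrip n q a.1 ∨ a.1 = sp n q
    · rw [SB_b_pos n θ q a h]
      simp only [NN]
      linarith
    · rw [SB_b_neg n θ q a h]
      exact mul_nonneg (CN_MM_pos _ _).le hθ.le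

theorem SB_z_face (n : ℕ) (θ : ℝ) (hθ : 0 < θ) (hθ' : θ < 1) (q : Fin 4)
    (a : {a : ℤ × ℤ // a ∈ Box n}) (h : InStrip n q a.1 ∨ a.1 = sp n q) :
    SB_z θ q ∈ Face (NN n) (SB_b n θ q) (.inr a) := by
  refine ⟨SB_z_mem n θ hθ hθ' q, ?_⟩
  rw [SB_sum, SB_b_pos n θ q a h]
  simp only [NN]
  ring

/-- the face of a strip point is a single point -/
theorem SB_single (n : ℕ) (hn : 10 ≤ n) (θ : ℝ) (q : Fin 4)
    (a : {a : ℤ × ℤ // a ∈ Box n}) (ha : InStrip n q a.1) (y : Fin 3 → ℝ)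
    (hy : y ∈ Face (NN n) (SB_b n θ q) (.inr a)) : y = SB_z θ q := by
  obtain ⟨hy1, hy2⟩ := hy
  obtain ⟨α, β, hα, hβ, hβ0, hM⟩ := cone_strip n hn q a.1 a.2 ha
  rw [SB_b_pos n θ q a (Or.inl ha)] at hy2
  have hsp := hy1 (.inr ⟨sp n q, sp_mem n hn q⟩)
  rw [SB_b_pos n θ q _ (Or.inr rfl)] at hsp
  simp only [NN] at hy2 hsp
  have hpos : ∀ i, 0 ≤ y i := by
    intro i
    have := hy1 (.inl (i, false))
    rwa [SB_b_false, SB_N_false] at this
  -- `MM a · y = α MM sp · y + β · y`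
  have h1 : ∑ i, MM a.1 i * y i = α * ∑ i, MM (sp n q) i * y i + ∑ i, β i * y i := by
    rw [Finset.mul_sum, ← Finset.sum_add_distrib]
    apply Finset.sum_congr rfl
    intro i _
    rw [hM i]; ring
  have h2 : MM a.1 (stax q) = α * MM (sp n q) (stax q) := by rw [hM, hβ0, add_zero]
  have h3 : ∑ i, β i * y i ≤ 0 := by
    have h4 : α * ∑ i, MM (sp n q) i * y i + ∑ i, β i * y i = θ * (α * MM (sp n q) (stax q)) := by
      rw [← h1, hy2, h2]
    have h5 : α * (θ * MM (sp n q) (stax q)) ≤ α * ∑ i, MM (sp n q) i * y i :=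
      mul_le_mul_of_nonneg_left hsp hα.le
    nlinarith
  have hβn : ∀ i, 0 ≤ β i := by
    intro i
    by_cases hi : i = stax q
    · rw [hi, hβ0]
    · exact (hβ i hi).le
  have h4 : ∀ i, β i * y i = 0 := by
    have h5 : ∑ i, β i * y i = 0 :=
      le_antisymm h3 (Finset.sum_nonneg fun i _ => mul_nonneg (hβn i) (hpos i))
    intro i
    exact (Finset.sum_eq_zero_iff_of_nonneg fun i _ => mul_nonneg (hβn i) (hpos i)).1 h5 i
      (Finset.mem_univ i)
  have h5 : ∀ i, i ≠ stax q → y i = 0 := by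
    intro i hi
    rcases mul_eq_zero.1 (h4 i) with h6 | h6
    · exact absurd h6 (hβ i hi).ne'
    · exact h6
  have h6 : y (stax q) = θ := by
    have h7 : ∑ i, MM a.1 i * y i = MM a.1 (stax q) * y (stax q) := by
      rw [Finset.sum_eq_single (stax q)]
      · intro i _ hi
        rw [h5 i hi, mul_zero]
      · intro h; exact absurd (Finset.mem_univ _) h
    rw [h7, mul_comm θ] at hy2
    exact mul_left_cancel₀ (CN_MM_pos _ _).ne' hy2
  funext i
  unfold SB_z
  split_ifs with hi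
  · rw [hi, h6]
  · exact h5 i hi

/-! ## module cx:SB (slices: strips) -/

theorem slice_strip (n : ℕ) (hn : 10 ≤ n) (θ : ℝ) (hθ : 0 < θ) (hθ' : θ < 1) (q : Fin 4)
    (col : Kap n → Fin 3 × Bool)
    (h : ColProp (NN n) (fun k => cc n k + bet n θ (.inr (.inl q)) k) col)
    (a : {a : ℤ × ℤ // a ∈ Box n}) (ha : InStrip n q a.1) :
    col (.inr a) = col (.inr ⟨sp n q, sp_mem n hn q⟩) ∨
      ∃ i, i ≠ stax q ∧ col (.inr a) = col (.inl (i, false)) := by
  have h' : ColProp (NN n) (SB_b n θ q) col := h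
  obtain ⟨k', hk1, hk2, hk3⟩ := h'.2 (.inr a) (SB_z θ q)
    (SB_z_face n θ hθ hθ' q a (Or.inl ha))
  rcases k' with ⟨i, b⟩ | a'
  · cases b
    · right
      have h1 := hk2.2
      rw [SB_b_false, SB_N_false] at h1
      refine ⟨i, ?_, hk1.symm⟩
      intro hi
      unfold SB_z at h1
      rw [if_pos hi] at h1
      exact hθ.ne' h1
    · exfalso
      have h1 := hk2.2
      rw [SB_b_true, SB_N_true] at h1
      unfold SB_z at h1
      split_ifs at h1 <;> linarith
  · by_cases hs : InStrip n q a'.1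
    · exfalso
      obtain ⟨y1, hy1, y2, hy2, hne⟩ := hk3
      exact hne ((SB_single n hn θ q a' hs y1 hy1).trans (SB_single n hn θ q a' hs y2 hy2).symm)
    · by_cases hsp : a'.1 = sp n q
      · left
        rw [← hk1]
        congr 2
        exact Subtype.ext hsp
      · exfalso
        have h1 := hk2.2
        rw [SB_sum, SB_b_neg n θ q a' (by tauto)] at h1
        simp only [NN] at h1
        exact (mul_pos (CN_MM_pos a'.1 (stax q)) hθ).ne' h1

end Pool.Agent.helper78.CX
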