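import Mathlib
import Pool.Agent.helper78.CX.Defs
import Pool.Agent.helper92.CX.SB

/-! # MP_c3df8c_co (CX project), module HD: Hausdorff distance, bounded, interior -/

open Set

namespace Pool.Agent.helper78.CX

/-- the tilts are small -/
theorem HD_w (n e : ℕ) (θ ε : ℝ) (h : Small n θ ε) (k : Kap n) (s : JJ e → ℝ)
    (hs : ∀ j, 0 ≤ s j ∧ s j ≤ 1) : |∑ j, ww n e θ k j * s j| ≤ ε * wt n k := by
  refine le_trans ?_ (h.2.2.2.1 k)
  rw [Fintype.sum_sum_type, Fintype.sum_prod_type]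
  have h1 : ∑ x : Fin e, ww n e θ k (Sum.inr x) * s (Sum.inr x) = 0 := by
    apply Finset.sum_eq_zero
    intro x _
    simp [ww]
  rw [h1, add_zero]
  refine (Finset.abs_sum_le_sum_abs _ _).trans ?_
  apply Finset.sum_le_sum
  intro l _
  rw [Fintype.sum_bool]
  have h2 : ww n e θ k (Sum.inl (l, true)) * s (Sum.inl (l, true)) +
      ww n e θ k (Sum.inl (l, false)) * s (Sum.inl (l, false)) =
      bet n θ l k * (s (Sum.inl (l, true)) - s (Sum.inl (l, false))) := by
    simp only [ww]; ring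
  rw [h2, abs_mul]
  apply mul_le_of_le_one_right (abs_nonneg _)
  have h3 := hs (Sum.inl (l, true))
  have h4 := hs (Sum.inl (l, false))
  rw [abs_le]
  constructor <;> linarith [h3.1, h3.2, h4.1, h4.2]

theorem HD_bet_true (n : ℕ) (θ : ℝ) (l : Cls) (i : Fin 3) : bet n θ l (.inl (i, true)) = 0 := by
  rcases l with q | q | ⟨j, r⟩ <;> simp [bet]

theorem HD_w_true (n e : ℕ) (θ : ℝ) (i : Fin 3) (s : JJ e → ℝ) :
    ∑ j, ww n e θ (.inl (i, true)) j * s j = 0 := by
  apply Finset.sum_eq_zero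
  intro j _
  rcases j with ⟨l, b⟩ | x
  · cases b <;> simp [ww, HD_bet_true]
  · simp [ww]

section
variable {X J : Type*}

theorem HD_pt_inl (e : J ⊕ Fin 3 ≃ X) (s : J → ℝ) (y : Fin 3 → ℝ) (j : J) :
    pt e s y (e (.inl j)) = s j := by simp [pt]

theorem HD_pt_inr (e : J ⊕ Fin 3 ≃ X) (s : J → ℝ) (y : Fin 3 → ℝ) (i : Fin 3) :
    pt e s y (e (.inr i)) = y i := by simp [pt]

/-- the distance of two points with the same `s` -/
theorem HD_dist [Fintype X] [Fintype J] (e : J ⊕ Fin 3 ≃ X) (x : EuclideanSpace ℝ X) (y : Fin 3 → ℝ) (ε : ℝ)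
    (hε : 0 ≤ ε) (hy : ∀ i, |x (e (.inr i)) - y i| ≤ ε) :
    dist x (pt e (fun j => x (e (.inl j))) y) ≤ 2 * ε := by
  rw [EuclideanSpace.dist_eq]
  apply Real.sqrt_le_iff.2
  refine ⟨by positivity, ?_⟩
  rw [← Equiv.sum_comp e, Fintype.sum_sum_type]
  have h1 : ∑ j : J, dist (x (e (.inl j)))
      ((pt e (fun j => x (e (.inl j))) y) (e (.inl j))) ^ 2 = 0 := by
    apply Finset.sum_eq_zero
    intro j _
    rw [HD_pt_inl, dist_self]; norm_num
  rw [h1, zero_add]
  have h2 : ∑ i : Fin 3, dist (x (e (.inr i)))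
      ((pt e (fun j => x (e (.inl j))) y) (e (.inr i))) ^ 2 ≤ ∑ i : Fin 3, ε ^ 2 := by
    apply Finset.sum_le_sum
    intro i _
    rw [HD_pt_inr, Real.dist_eq]
    exact pow_le_pow_left₀ (abs_nonneg _) (hy i) 2
  refine h2.trans ?_
  simp
  nlinarith [sq_nonneg ε]

end

theorem HD_wt_inr (n : ℕ) (a : {a : ℤ × ℤ // a ∈ Box n}) : 0 < wt n (.inr a) := by
  show 0 < ∑ i, MM a.1 i
  exact Finset.sum_pos (fun i _ => CN_MM_pos _ _) Finset.univ_nonempty

/-- `Poly` in terms of the `y`-coordinates -/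
theorem HD_poly_y {X : Type*} [Fintype X] (n e : ℕ) (θ ε : ℝ)
    (h : Small n θ ε) (E : JJ e ⊕ Fin 3 ≃ X) (x : EuclideanSpace ℝ X)
    (hx : x ∈ Poly E (NN n) (cc n) (ww n e θ)) (i : Fin 3) :
    -ε ≤ x (E (.inr i)) ∧ x (E (.inr i)) ≤ 1 := by
  constructor
  · have h1 := hx.2 (.inl (i, false))
    have h2 := HD_w n e θ ε h (.inl (i, false)) (fun j => x (E (.inl j))) hx.1
    rw [SB_N_false n i (fun i => x (E (.inr i)))] at h1
    have h3 : wt n (.inl (i, false)) = 1 := rfl
    have h4 : cc n (.inl (i, false)) = 0 := rfl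
    rw [h3, mul_one] at h2
    rw [h4, zero_add] at h1
    linarith [(abs_le.1 h2).1]
  · have h1 := hx.2 (.inl (i, true))
    rw [SB_N_true n i (fun i => x (E (.inr i))), HD_w_true n e θ i (fun j => x (E (.inl j)))] at h1
    have h4 : cc n (.inl (i, true)) = -1 := rfl
    rw [h4] at h1
    linarith

/-! ## module cx:HD (Hausdorff distance, bounded, interior) -/

theorem poly_bounded {X : Type*} [Fintype X] (n e : ℕ) (θ ε : ℝ) (hε : ε ≤ 1 / 4)
    (h : Small n θ ε) (E : JJ e ⊕ Fin 3 ≃ X) :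
    Bornology.IsBounded (Poly E (NN n) (cc n) (ww n e θ)) := by
  rw [isBounded_iff_forall_norm_le]
  refine ⟨Real.sqrt (Fintype.card X), fun x hx => ?_⟩
  rw [EuclideanSpace.norm_eq]
  apply Real.sqrt_le_sqrt
  have h1 : ∀ k : X, ‖x k‖ ^ 2 ≤ 1 := by
    intro k
    obtain ⟨z, rfl⟩ := E.surjective k
    have h2 : |x (E z)| ≤ 1 := by
      rcases z with j | i
      · have := hx.1 j
        rw [abs_le]
        constructor <;> linarith [this.1, this.2]
      · have := HD_poly_y n e θ ε h E x hx i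
        rw [abs_le]
        constructor <;> linarith [this.1, this.2]
    rw [Real.norm_eq_abs]
    exact pow_le_one₀ (abs_nonneg _) h2
  calc ∑ k, ‖x k‖ ^ 2 ≤ ∑ k : X, (1 : ℝ) := Finset.sum_le_sum fun k _ => h1 k
    _ = Fintype.card X := by simp

/-- moving `y` into `[ε, 1]` stays in `Poly` -/
theorem HD_mem {X : Type*} [Fintype X] (n e : ℕ) (θ ε : ℝ)
    (h : Small n θ ε) (E : JJ e ⊕ Fin 3 ≃ X) (s : JJ e → ℝ) (hs : ∀ j, 0 ≤ s j ∧ s j ≤ 1)
    (y : Fin 3 → ℝ) (hy : ∀ i, ε ≤ y i ∧ y i ≤ 1) :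
    pt E s y ∈ Poly E (NN n) (cc n) (ww n e θ) := by
  refine ⟨fun j => ?_, fun k => ?_⟩
  · rw [HD_pt_inl]; exact hs j
  · have h0 : ∀ i, pt E s y (E (.inr i)) = y i := fun i => HD_pt_inr E s y i
    have h0' : ∀ j, pt E s y (E (.inl j)) = s j := fun j => HD_pt_inl E s y j
    simp only [h0, h0']
    have h2 := HD_w n e θ ε h k s hs
    rcases k with ⟨i, b⟩ | a
    · cases b
      · have h3 : wt n (.inl (i, false)) = 1 := rfl
        have h4 : cc n (.inl (i, false)) = 0 := rfl
        rw [SB_N_false, h4]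
        rw [h3] at h2
        linarith [(abs_le.1 h2).2, (hy i).1]
      · have h4 : cc n (.inl (i, true)) = -1 := rfl
        rw [SB_N_true, h4, HD_w_true]
        linarith [(hy i).2]
    · have h4 : cc n (.inr a) = 0 := rfl
      rw [h4, zero_add]
      refine (le_abs_self _).trans (h2.trans ?_)
      show ε * ∑ i, MM a.1 i ≤ ∑ i, MM a.1 i * y i
      rw [Finset.mul_sum]
      apply Finset.sum_le_sum
      intro i _
      rw [mul_comm]
      exact mul_le_mul_of_nonneg_left (hy i).1 (CN_MM_pos _ _).le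

theorem poly_hausdorff {X : Type*} [Fintype X] (n e : ℕ) (θ ε : ℝ) (hε : ε ≤ 1 / 4) (hε0 : 0 < ε)
    (h : Small n θ ε) (E : JJ e ⊕ Fin 3 ≃ X) :
    Metric.hausdorffDist (cube X) (Poly E (NN n) (cc n) (ww n e θ)) ≤ 2 * ε := by
  apply Metric.hausdorffDist_le_of_mem_dist (by positivity)
  · intro x hx
    refine ⟨pt E (fun j => x (E (.inl j))) (fun i => max (x (E (.inr i))) ε), ?_, ?_⟩
    · apply HD_mem n e θ ε h E _ (fun j => hx _)
      intro i
      exact ⟨le_max_right _ _, max_le (hx _).2 (by linarith)⟩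
    · apply HD_dist E x _ ε hε0.le
      intro i
      have := (hx (E (.inr i))).1
      rcases le_total (x (E (.inr i))) ε with h1 | h1
      · rw [max_eq_right h1, abs_le]
        constructor <;> linarith
      · rw [max_eq_left h1, sub_self, abs_zero]
        exact hε0.le
  · intro x hx
    refine ⟨pt E (fun j => x (E (.inl j))) (fun i => max (x (E (.inr i))) 0), ?_, ?_⟩
    · intro k
      obtain ⟨z, rfl⟩ := E.surjective k
      rcases z with j | i
      · rw [HD_pt_inl]
        exact hx.1 j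
      · rw [HD_pt_inr]
        have := HD_poly_y n e θ ε h E x hx i
        exact ⟨le_max_right _ _, max_le this.2 (by norm_num)⟩
    · rw [dist_comm, dist_comm]
      apply HD_dist E x _ ε hε0.le
      intro i
      have := HD_poly_y n e θ ε h E x hx i
      rcases le_total (x (E (.inr i))) 0 with h1 | h1
      · rw [max_eq_right h1, abs_le]
        constructor <;> linarith [this.1]
      · rw [max_eq_left h1, sub_self, abs_zero]
        exact hε0.le

theorem poly_interior {X : Type*} [Fintype X] (n e : ℕ) (θ ε : ℝ) (hε : ε ≤ 1 / 4)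
    (h : Small n θ ε) (E : JJ e ⊕ Fin 3 ≃ X) :
    (interior (Poly E (NN n) (cc n) (ww n e θ))).Nonempty := by
  set U : Set (EuclideanSpace ℝ X) := {x | (∀ j, 0 < x (E (.inl j)) ∧ x (E (.inl j)) < 1) ∧
    ∀ k, cc n k + ∑ j, ww n e θ k j * x (E (.inl j)) < ∑ i, NN n k i * x (E (.inr i))} with hU
  have hopen : IsOpen U := by
    have h1 : IsOpen {x : EuclideanSpace ℝ X | ∀ j, 0 < x (E (.inl j)) ∧ x (E (.inl j)) < 1} := by
      simp only [Set.ofPred_forall]
      apply isOpen_iInter_of_finite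
      intro j
      have h3 : Continuous fun x : EuclideanSpace ℝ X => x (E (.inl j)) := by fun_prop
      exact (isOpen_lt continuous_const h3).inter (isOpen_lt h3 continuous_const)
    have h2 : IsOpen {x : EuclideanSpace ℝ X | ∀ k,
        cc n k + ∑ j, ww n e θ k j * x (E (.inl j)) < ∑ i, NN n k i * x (E (.inr i))} := by
      simp only [Set.ofPred_forall]
      apply isOpen_iInter_of_finite
      intro k
      exact isOpen_lt (by fun_prop) (by fun_prop)
    exact h1.inter h2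
  have hsub : U ⊆ Poly E (NN n) (cc n) (ww n e θ) := by
    rintro x ⟨hx1, hx2⟩
    exact ⟨fun j => ⟨(hx1 j).1.le, (hx1 j).2.le⟩, fun k => (hx2 k).le⟩
  refine ⟨pt E (fun _ => 1 / 2) (fun _ => 1 / 2), ?_⟩
  apply interior_maximal hsub hopen
  refine ⟨fun j => ?_, fun k => ?_⟩
  · rw [HD_pt_inl]; norm_num
  · simp only [HD_pt_inl, HD_pt_inr]
    have h2 := HD_w n e θ ε h k (fun _ => 1 / 2) (fun _ => by norm_num)
    rcases k with ⟨i, b⟩ | a
    · cases b
      · have h3 : wt n (.inl (i, false)) = 1 := rfl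
        have h4 : cc n (.inl (i, false)) = 0 := rfl
        rw [SB_N_false n i (fun _ => 1 / 2), h4]
        rw [h3] at h2
        linarith [(abs_le.1 h2).2]
      · have h4 : cc n (.inl (i, true)) = -1 := rfl
        rw [SB_N_true n i (fun _ => 1 / 2), h4, HD_w_true n e θ i (fun _ => 1 / 2)]
        norm_num
    · have h4 : cc n (.inr a) = 0 := rfl
      rw [h4, zero_add]
      refine lt_of_le_of_lt ((le_abs_self _).trans h2) ?_
      have h5 := HD_wt_inr n a
      have h6 : ∑ i, NN n (.inr a) i * (1 / 2) = wt n (.inr a) * (1 / 2) := by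
        show ∑ i, MM a.1 i * (1 / 2) = (∑ i, MM a.1 i) * (1 / 2)
        rw [Finset.sum_mul]
      rw [h6]
      nlinarith

end Pool.Agent.helper78.CX
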